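import Pool.Agent.Helper35.SHQ.Sheet

namespace SHQ
open scoped ENNReal
open Filter Topology

theorem om_zero : Q3.om ⟨0, 0, 0⟩ = ⟨0, 0, 0⟩ := by simp [Q3.om]

theorem st_ASM (hLIM : ST_LIM) (hFIN : ST_FIN) (hLEV : ST_LEV) (hLZ : ST_LZ) (hTOP : ST_TOP)
    (hSUM : ST_SUM) (hNUM : ST_NUM) : ST_ASM := by
  obtain ⟨L, hL1, hlim, hle⟩ := hLIM
  refine ⟨L, ?_, hlim⟩
  by_contra hcon
  push Not at hcon
  set zq : ℚ := 35028 / 100000 with hzq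
  set σq : ℚ := 403 / 400 with hσq
  have hz0 : (0 : ℝ) < (zq : ℝ) := by rw [hzq]; push_cast; norm_num
  have hLz : L * (zq : ℝ) ^ 2 < 1 := by
    have : (zq : ℝ) = 35028 / 100000 := by rw [hzq]; push_cast; norm_num
    rw [this]; nlinarith
  have hfin := hFIN L (zq : ℝ) hz0 (by linarith) hLz hle 0
  have hz1 : ENNReal.ofReal (zq : ℝ) ≠ 0 := by
    rw [Ne, ENNReal.ofReal_eq_zero]; linarith
  have hz2 : ENNReal.ofReal (zq : ℝ) ≠ ⊤ := ENNReal.ofReal_ne_top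
  have hs1 : (1 : ℝ≥0∞) ≤ ENNReal.ofReal (σq : ℝ) := by
    rw [ENNReal.one_le_ofReal, hσq]; push_cast; norm_num
  obtain ⟨N, Y, hN⟩ := hNUM
  have key : ∀ n : ℕ, 0 ≤ ((stepQ Y zq σq)^[n] ⟨0, 0, 0⟩).al ∧
      0 ≤ ((stepQ Y zq σq)^[n] ⟨0, 0, 0⟩).be ∧ 0 ≤ ((stepQ Y zq σq)^[n] ⟨0, 0, 0⟩).ka ∧
      Lev (ENNReal.ofReal (zq : ℝ)) ((stepQ Y zq σq)^[n] ⟨0, 0, 0⟩).om := by
    intro n
    induction n with
    | zero =>
      refine ⟨le_rfl, le_rfl, le_rfl, ?_⟩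
      simp only [Function.iterate_zero, id_eq, om_zero]
      exact hLZ _ hz1
    | succ n ih =>
      obtain ⟨h1, h2, h3, h4⟩ := ih
      rw [Function.iterate_succ_apply']
      obtain ⟨k1, k2, k3, k4⟩ := hSUM Y zq σq _ (by rw [hzq]; norm_num) (by rw [hσq]; norm_num)
        h1 h2 h3
      exact ⟨k1, k2, k3, hLEV _ _ _ _ hz1 hz2 hs1 ENNReal.ofReal_ne_top k4 h4⟩
  obtain ⟨-, hb, -, hlev⟩ := key N
  have htop := hTOP (ENNReal.ofReal (zq : ℝ)) _ hz1 (by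
    rw [Q3.om, ← ENNReal.ofReal_mul hz0.le, ENNReal.one_le_ofReal]
    exact_mod_cast hN) hlev 0
  rw [htop] at hfin
  exact lt_irrefl _ hfin

end SHQ
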