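import Pool.Agent.Helper35.SHQ.Sheet

namespace SHQ
open scoped ENNReal
open Filter Topology

theorem ValC_app (o : Om) (T S : Tr) : ∀ (b : Fin 3) (f : Fin 3 → ℝ≥0∞),
    ValC o b (T.app S) f = ValC o b T (fun b' => ValC o b' S f) := by
  induction T with
  | nil => intro b f; rfl
  | one a T ih => intro b f; simp only [Tr.app, ValC, ih]
  | two c T T' ih ih' => intro b f; simp only [Tr.app, ValC, ih, ih']

theorem ValC_mul (o : Om) (c : ℝ≥0∞) (T : Tr) : ∀ (b : Fin 3) (f : Fin 3 → ℝ≥0∞),
    ValC o b T (fun b' => f b' * c) = ValC o b T f * c := by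
  induction T with
  | nil => intro b f; rfl
  | one a T ih => intro b f; simp only [ValC, ih]; ring
  | two d T T' ih ih' => intro b f; simp only [ValC, ih, ih']; ring

theorem ValC_mono (o : Om) (T : Tr) : ∀ (b : Fin 3) (f g : Fin 3 → ℝ≥0∞), (∀ b, f b ≤ g b) →
    ValC o b T f ≤ ValC o b T g := by
  induction T with
  | nil => intro b f g h; exact h b
  | one a T ih => intro b f g h; simp only [ValC]; gcongr; exact ih _ _ _ h
  | two d T T' ih ih' =>
    intro b f g h; simp only [ValC]; gcongr
    · exact ih _ _ _ h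
    · exact ih' _ _ _ h

theorem ValC_tsum {ι : Type} (o : Om) (a : ι → ℝ≥0∞) (T : Tr) :
    ∀ (b : Fin 3) (f : ι → Fin 3 → ℝ≥0∞),
    ∑' i, a i * ValC o b T (f i) = ValC o b T (fun b' => ∑' i, a i * f i b') := by
  induction T with
  | nil => intro b f; rfl
  | one c T ih =>
    intro b f
    simp only [ValC]
    rw [← ih, ← ENNReal.tsum_mul_left]
    exact tsum_congr fun i => by ring
  | two d T T' ih ih' =>
    intro b f
    simp only [ValC]
    rw [← ih, ← ih', ← ENNReal.tsum_add, ← ENNReal.tsum_mul_left]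
    exact tsum_congr fun i => by ring

theorem ValS_app (o : Om) (T S : Tr) (hT : T ≠ .nil) (f : Fin 3 → ℝ≥0∞) :
    ValS o (T.app S) f = ValS o T (fun b' => ValC o b' S f) := by
  cases T with
  | nil => exact absurd rfl hT
  | one a T => simp only [Tr.app, ValS, ValC_app]
  | two c T T' => simp only [Tr.app, ValS, ValC_app]

theorem ValS_mul (o : Om) (c : ℝ≥0∞) (T : Tr) (f : Fin 3 → ℝ≥0∞) :
    ValS o T (fun b' => f b' * c) = ValS o T f * c := by
  cases T with
  | nil => simp [ValS]
  | one a T => simp only [ValS, ValC_mul]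
  | two d T T' => simp only [ValS, ValC_mul]; ring

theorem ValS_mono (o : Om) (T : Tr) (f g : Fin 3 → ℝ≥0∞) (h : ∀ b, f b ≤ g b) :
    ValS o T f ≤ ValS o T g := by
  cases T with
  | nil => simp [ValS]
  | one a T => exact ValC_mono o T _ _ _ h
  | two d T T' => exact add_le_add (ValC_mono o T _ _ _ h) (ValC_mono o T' _ _ _ h)

theorem ValS_tsum {ι : Type} (o : Om) (a : ι → ℝ≥0∞) (T : Tr) (f : ι → Fin 3 → ℝ≥0∞) :
    ∑' i, a i * ValS o T (f i) = ValS o T (fun b' => ∑' i, a i * f i b') := by
  cases T with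
  | nil => simp [ValS]
  | one c T => simp only [ValS]; exact ValC_tsum o a T _ _
  | two d T T' =>
    simp only [ValS]
    rw [← ValC_tsum, ← ValC_tsum, ← ENNReal.tsum_add]
    exact tsum_congr fun i => by ring

theorem app_ne (S D : Tr) (hS : S ≠ .nil) : S.app D ≠ .nil := by
  cases S with
  | nil => exact absurd rfl hS
  | one a T => simp [Tr.app]
  | two c T T' => simp [Tr.app]

theorem psi_le {σ : ℝ≥0∞} (hσ : 1 ≤ σ) (f b : Fin 3) : psi σ f b ≤ σ := by
  unfold psi; split_ifs
  · exact hσ
  · exact le_rfl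

theorem one_le_psi {σ : ℝ≥0∞} (hσ : 1 ≤ σ) (f b : Fin 3) : 1 ≤ psi σ f b := by
  unfold psi; split_ifs
  · exact le_rfl
  · exact hσ

theorem lev_core {ι : Type} (o : Om) (σ c0 k V : ℝ≥0∞) (p g : Fin 3) (a : ι → ℝ≥0∞) (D : ι → Tr)
    (S : Tr) (hS : S ≠ .nil)
    (h : ∀ b, k * psi σ p b ≤ ∑' i, a i * ValC o b (D i) (psi σ g)) :
    c0 * ValS o S (fun b => psi σ p b * (k * V)) ≤
      ∑' i, a i * (c0 * ValS o (S.app (D i)) (fun b' => psi σ g b' * V)) := by
  have e : ∑' i, a i * (c0 * ValS o (S.app (D i)) (fun b' => psi σ g b' * V)) =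
      c0 * ValS o S (fun b => (∑' i, a i * ValC o b (D i) (psi σ g)) * V) := by
    have e1 : ∀ i, a i * (c0 * ValS o (S.app (D i)) (fun b' => psi σ g b' * V)) =
        c0 * (a i * ValS o S (fun b => ValC o b (D i) (psi σ g) * V)) := by
      intro i
      rw [ValS_app o _ _ hS]
      simp only [ValC_mul]
      ring
    rw [tsum_congr e1, ENNReal.tsum_mul_left, ValS_tsum]
    congr 2
    funext b
    rw [← ENNReal.tsum_mul_right]
    exact tsum_congr fun i => by ring
  rw [e]
  refine mul_le_mul_right ?_ c0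
  refine ValS_mono o S _ _ fun b => ?_
  calc psi σ p b * (k * V) = (k * psi σ p b) * V := by ring
    _ ≤ _ := by gcongr; exact h b

theorem st_LEV (hL : ST_LNG) (hG : ST_GR) : ST_LEV := by
  intro z σ o o' hz hz' hσ hσ' hGood ⟨c, hc, hlev⟩
  obtain ⟨g0, g1, g2, g3, g4, g5, -, -⟩ := hG z
  obtain ⟨n1, n2, n3⟩ := hGood
  obtain ⟨-, hass, -, -, -⟩ := hL
  have hσ0 : σ ≠ 0 := by
    intro h; rw [h] at hσ; simp at hσ
  set c0 := c / σ with hc0
  have hc0' : c0 ≠ 0 := by
    rw [hc0]; exact ENNReal.div_ne_zero.2 ⟨hc, hσ'⟩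
  have key : ∀ (T : Tr) (p : Fin 3) (S : Tr), S ≠ .nil →
      c0 * ValS o S (fun b => psi σ p b * ValC o' p T 1) ≤ G z p (T.app S) := by
    intro T
    induction T with
    | nil =>
      intro p S hS
      calc c0 * ValS o S (fun b => psi σ p b * ValC o' p .nil 1)
          ≤ c0 * ValS o S (fun b => (1 : Fin 3 → ℝ≥0∞) b * σ) := by
            gcongr
            refine ValS_mono o S _ _ fun b => ?_
            simp only [ValC, Pi.one_apply, mul_one, one_mul]
            exact psi_le hσ _ _
        _ = c * ValS o S 1 := by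
            rw [ValS_mul, hc0, mul_comm (ValS o S 1) σ, ← mul_assoc,
              ENNReal.div_mul_cancel hσ0 hσ']
        _ ≤ F z S := hlev S
        _ ≤ G z p S := g0 p S
    | one g T ih =>
      intro p S hS
      by_cases hgp : g = p
      · subst hgp
        have e : ValC o' g (.one g T) 1 = o'.be * ValC o' g T 1 := by simp [ValC, w]
        rw [e]
        refine (lev_core o σ c0 _ _ g g (fun y : List Bool => z ^ (y.length + 1)) _ S hS
          (n2 g)).trans ?_
        refine le_trans ?_ (g2 g (T.app S))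
        refine ENNReal.tsum_le_tsum fun y => ?_
        gcongr
        rw [hass]
        exact ih g _ (app_ne _ _ hS)
      · have e : ValC o' p (.one g T) 1 = o'.al * ValC o' g T 1 := by
          simp [ValC, w, Ne.symm hgp]
        rw [e]
        refine (lev_core o σ c0 _ _ p g (fun y : List Bool => z ^ (y.length + 1)) _ S hS
          (fun b => n1 p g b hgp)).trans ?_
        refine le_trans ?_ (g1 p g (T.app S) hgp)
        refine ENNReal.tsum_le_tsum fun y => ?_
        gcongr
        rw [hass]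
        exact ih g _ (app_ne _ _ hS)
    | two d T T' ih ih' =>
      intro p S hS
      have hd1 : d ≠ d + 1 := by revert d; decide
      have hd2 : d ≠ d + 2 := by revert d; decide
      have e : ∀ b : Fin 3, psi σ p b * ValC o' p (.two d T T') 1 =
          psi σ p b * (o'.ka * ValC o' (d + 1) T 1) + psi σ p b * (o'.ka * ValC o' (d + 2) T' 1) := by
        intro b; simp only [ValC]; ring
      have e2 : ValS o S (fun b => psi σ p b * ValC o' p (.two d T T') 1) =
          ValS o S (fun b => psi σ p b * (o'.ka * ValC o' (d + 1) T 1)) +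
          ValS o S (fun b => psi σ p b * (o'.ka * ValC o' (d + 2) T' 1)) := by
        have h0 := ValS_mul o (ValC o' p (.two d T T') 1) S (psi σ p)
        have h1 := ValS_mul o (o'.ka * ValC o' (d + 1) T 1) S (psi σ p)
        have h2 := ValS_mul o (o'.ka * ValC o' (d + 2) T' 1) S (psi σ p)
        rw [h0, h1, h2]
        simp only [ValC]; ring
      rw [e2, mul_add]
      have l1 := lev_core o σ c0 o'.ka (ValC o' (d + 1) T 1) p (d + 1)
        (fun j : ℕ => z ^ (j + 1)) (fun j => fix (List.replicate j d)) S hS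
        (fun b => n3 p (d + 1) d b hd1)
      have l2 := lev_core o σ c0 o'.ka (ValC o' (d + 2) T' 1) p (d + 2)
        (fun j : ℕ => z ^ (j + 1)) (fun j => fix (List.replicate j d)) S hS
        (fun b => n3 p (d + 2) d b hd2)
      refine (add_le_add l1 l2).trans ?_
      rw [← ENNReal.tsum_add]
      refine le_trans ?_ (g3 p d (T.app S) (T'.app S))
      refine ENNReal.tsum_le_tsum fun j => ?_
      rw [mul_add, hass, hass]
      gcongr
      · exact ih (d + 1) _ (app_ne _ _ hS)
      · exact ih' (d + 2) _ (app_ne _ _ hS)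
  refine ⟨z ^ 2 * c0, mul_ne_zero (pow_ne_zero 2 hz) hc0', fun T => ?_⟩
  have fin : ∀ (g y : Fin 3) (T : Tr), z ^ 2 * c0 * ValC o' g T 1 ≤
      z ^ 2 * G z g (T.app (.one y .nil)) := by
    intro g y T
    have := key T g (.one y .nil) (by simp)
    rw [mul_assoc]
    gcongr
    refine le_trans ?_ this
    gcongr
    simp only [ValS, ValC]
    calc ValC o' g T 1 = 1 * ValC o' g T 1 := (one_mul _).symm
      _ ≤ _ := by gcongr; exact one_le_psi hσ _ _
  cases T with
  | nil => simp [ValS]
  | one g T => exact (fin g (g + 1) T).trans (g4 g T)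
  | two d T T' =>
    refine le_trans ?_ (g5 d T T')
    simp only [ValS]
    rw [mul_add, mul_add]
    exact add_le_add (fin (d + 1) d T) (fin (d + 2) d T')

end SHQ
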