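import Mathlib

/-!
# SHQ: ternary shuffle squares, growth rate at least 8.15 (MP_0dfa80_co)

A word `x` is read from left to right. `Pend u x`: the pending word `u` (read for the first copy,
not yet matched) can be completed by reading `x`. Contents are stored as tries (`Tr`), consumed in
generations. After popping `p` the next letter to be popped is `g ≠ p`; the letters `y` read in
between are in `{p, h}`; the popped `p` can be exchanged with a later `p` of `y`, so the new content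
is the trie `(D2 p g y).1` of the words `p y` minus one `p`.
Potential `ValC`: weights `al` (pop `a` after `b ≠ a`), `be` (pop `b` after `b`), `ka` (pop one of
two letters), and `psi f b` (`f` = last popped letter, `b` = last letter of the content).
-/

namespace SHQ
open scoped ENNReal
open Filter Topology

abbrev W := List (Fin 3)

/-- `x` is a shuffle of `a` and `d` -/
inductive Shf : W → W → W → Prop
  | nil : Shf [] [] []
  | left (c : Fin 3) {x a d : W} : Shf x a d → Shf (c :: x) (c :: a) d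
  | right (c : Fin 3) {x a d : W} : Shf x a d → Shf (c :: x) a (c :: d)

/-- shuffle square -/
def SQ (s : W) : Prop := ∃ v, Shf s v v

/-- `x` completes the pending word `u` -/
def Pend (u x : W) : Prop := ∃ v, Shf x v (u ++ v)

/-- tries; the children of `two c T T'` have the letters `c + 1` and `c + 2` -/
inductive Tr
  | nil : Tr
  | one (a : Fin 3) (T : Tr) : Tr
  | two (c : Fin 3) (T T' : Tr) : Tr

def Tr.lang : Tr → Set W
  | .nil => {[]}
  | .one a T => (fun u => a :: u) '' T.lang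
  | .two c T T' => (fun u => (c + 1) :: u) '' T.lang ∪ (fun u => (c + 2) :: u) '' T'.lang

/-- concatenation -/
def Tr.app : Tr → Tr → Tr
  | .nil, S => S
  | .one a T, S => .one a (T.app S)
  | .two c T T', S => .two c (T.app S) (T'.app S)

/-- a single word -/
def fix : W → Tr
  | [] => .nil
  | a :: l => .one a (fix l)

/-- the third letter (for `p ≠ g`) -/
def th (p g : Fin 3) : Fin 3 := -(p + g)

/-- words over `{p, h}` -/
def lt (p h : Fin 3) (t : Bool) : Fin 3 := if t then p else h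

/-- first component: the words `p y` minus one `p`; second component (if `y` contains `p`): the
words `y` minus one `p`; here `y` stands for `y.map (lt p (th p g))` -/
def D2 (p g : Fin 3) : List Bool → Tr × Tr
  | [] => (.nil, .nil)
  | true :: y => (.one p (D2 p g y).1, (D2 p g y).1)
  | false :: y =>
    (if true ∈ y then
        .two g (if g + 1 = p then .one (th p g) (D2 p g y).2 else fix (y.map (lt p (th p g))))
          (if g + 2 = p then .one (th p g) (D2 p g y).2 else fix (y.map (lt p (th p g))))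
      else .one (th p g) (fix (y.map (lt p (th p g)))),
      .one (th p g) (D2 p g y).2)

/-- weighted number of the words with the property `P` -/
noncomputable def Sg (z : ℝ≥0∞) (P : W → Prop) : ℝ≥0∞ :=
  ∑' x : W, {x | P x}.indicator (fun x => z ^ x.length) x

noncomputable def F (z : ℝ≥0∞) (T : Tr) : ℝ≥0∞ := Sg z fun x => ∃ u ∈ T.lang, Pend u x

/-- just before reading `p`, which is the first pending letter; `T` = the rest -/
noncomputable def G (z : ℝ≥0∞) (p : Fin 3) (T : Tr) : ℝ≥0∞ :=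
  Sg z fun x => ∃ u ∈ T.lang, Pend (p :: u) (p :: x)

structure Om where
  al : ℝ≥0∞
  be : ℝ≥0∞
  ka : ℝ≥0∞

noncomputable def w (o : Om) (b a : Fin 3) : ℝ≥0∞ := if b = a then o.be else o.al

noncomputable def ValC (o : Om) : Fin 3 → Tr → (Fin 3 → ℝ≥0∞) → ℝ≥0∞
  | b, .nil, f => f b
  | b, .one a T, f => w o b a * ValC o a T f
  | _, .two c T T', f => o.ka * (ValC o (c + 1) T f + ValC o (c + 2) T' f)

/-- value of a trie at the start of a generation -/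
noncomputable def ValS (o : Om) (T : Tr) (f : Fin 3 → ℝ≥0∞) : ℝ≥0∞ :=
  match T with
  | .nil => 0
  | .one a T => ValC o a T f
  | .two c T T' => ValC o (c + 1) T f + ValC o (c + 2) T' f

noncomputable def psi (σ : ℝ≥0∞) (f b : Fin 3) : ℝ≥0∞ := if f = b then 1 else σ

def Good (z σ : ℝ≥0∞) (o o' : Om) : Prop :=
  (∀ p g b : Fin 3, g ≠ p → o'.al * psi σ p b ≤
    ∑' y : List Bool, z ^ (y.length + 1) * ValC o b (D2 p g y).1 (psi σ g)) ∧
  (∀ p b : Fin 3, o'.be * psi σ p b ≤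
    ∑' y : List Bool, z ^ (y.length + 1) * ValC o b (fix (y.map (lt (p + 1) (p + 2)))) (psi σ p)) ∧
  (∀ s a c b : Fin 3, c ≠ a → o'.ka * psi σ s b ≤
    ∑' j : ℕ, z ^ (j + 1) * ValC o b (fix (List.replicate j c)) (psi σ a))

/-- level `o` is reached -/
def Lev (z : ℝ≥0∞) (o : Om) : Prop := ∃ c : ℝ≥0∞, c ≠ 0 ∧ ∀ T : Tr, c * ValS o T 1 ≤ F z T

/-! ## The rows -/

/-- (SHF) -/
def ST_SHF : Prop := (∀ x a d, Shf x a d → Shf x d a) ∧
  (∀ x a d x' a' d', Shf x a d → Shf x' a' d' → Shf (x ++ x') (a ++ a') (d ++ d')) ∧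
  (∀ x, Shf x x []) ∧ (∀ x a d, Shf x a d → x.length = a.length + d.length)

/-- (PEN) from SHF -/
def ST_PEN : Prop := (∀ x1 a d t x2, Shf x1 a d → Pend (t ++ d) x2 → Pend (a ++ t) (x1 ++ x2)) ∧
  (∀ u, Pend u u) ∧ (∀ u x, Pend u x → SQ (u ++ x)) ∧
  (∀ s, SQ s → ∃ n, s.length = 2 * n) ∧ (∀ s s', SQ s → SQ s' → SQ (s ++ s'))

/-- (PRE) a prefix code -/
def ST_PRE : Prop := ∀ (z : ℝ≥0∞) (ι : Type) (pre : ι → W) (Q : ι → W → Prop) (P : W → Prop),
  (∀ i j x x', pre i ++ x = pre j ++ x' → i = j) → (∀ i x, Q i x → P (pre i ++ x)) →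
  ∑' i, z ^ (pre i).length * Sg z (Q i) ≤ Sg z P

/-- (LNG) -/
def ST_LNG : Prop := (∀ T S : Tr, (T.app S).lang = {u | ∃ t ∈ T.lang, ∃ s ∈ S.lang, u = t ++ s}) ∧
  (∀ T S R : Tr, (T.app S).app R = T.app (S.app R)) ∧ (∀ T : Tr, T.app .nil = T) ∧
  (∀ l : W, (fix l).lang = {l}) ∧ (∀ T : Tr, T.lang.Nonempty)

/-- (SEM) meaning of `D2`, for `g ≠ p` -/
def ST_SEM : Prop := ∀ p g : Fin 3, g ≠ p → ∀ y : List Bool,
  (∀ d ∈ (D2 p g y).1.lang, Shf (p :: y.map (lt p (th p g))) [p] d) ∧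
  (true ∈ y → ∀ d ∈ (D2 p g y).2.lang, Shf (y.map (lt p (th p g))) [p] d)

/-- (GR) the recursion (from PEN, PRE, LNG, SEM) -/
def ST_GR : Prop := ∀ z : ℝ≥0∞,
  (∀ p T, F z T ≤ G z p T) ∧
  (∀ p g T, g ≠ p →
    ∑' y : List Bool, z ^ (y.length + 1) * G z g (T.app (D2 p g y).1) ≤ G z p (.one g T)) ∧
  (∀ p T, ∑' y : List Bool, z ^ (y.length + 1) * G z p (T.app (fix (y.map (lt (p + 1) (p + 2))))) ≤
    G z p (.one p T)) ∧
  (∀ p c T T', ∑' j : ℕ, z ^ (j + 1) * (G z (c + 1) (T.app (fix (List.replicate j c))) +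
    G z (c + 2) (T'.app (fix (List.replicate j c)))) ≤ G z p (.two c T T')) ∧
  (∀ g T, z ^ 2 * G z g (T.app (.one (g + 1) .nil)) ≤ F z (.one g T)) ∧
  (∀ c T T', z ^ 2 * (G z (c + 1) (T.app (.one c .nil)) + G z (c + 2) (T'.app (.one c .nil))) ≤
    F z (.two c T T')) ∧
  (∀ g T, ∑' j : ℕ, z ^ (j + 1) * G z g (T.app (fix (List.replicate j (g + 1)))) ≤ F z (.one g T)) ∧
  (∀ g T, z ≤ F z (.one g .nil) ∧ z ≤ F z (.two g .nil T) ∧ z ≤ F z (.two g T .nil))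

/-- (LEV) one step, from GR. Claim by induction on `T`, for all `p` and `S ≠ nil`:
`c0 * ValS o S (fun b => psi σ p b * ValC o' p T 1) ≤ G z p (T.app S)` -/
def ST_LEV : Prop := ∀ (z σ : ℝ≥0∞) (o o' : Om), z ≠ 0 → z ≠ ⊤ → 1 ≤ σ → σ ≠ ⊤ →
  Good z σ o o' → Lev z o → Lev z o'

/-- (LZ) the start, from GR -/
def ST_LZ : Prop := ∀ z : ℝ≥0∞, z ≠ 0 → Lev z ⟨0, 0, 0⟩

/-- (TOP) the end, from GR: `be ≥ 1 / z` gives an infinite `F` (contents `(g+1)^j`) -/
def ST_TOP : Prop := ∀ (z : ℝ≥0∞) (o : Om), z ≠ 0 → 1 ≤ z * o.be → Lev z o →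
  ∀ g, F z (.one g .nil) = ⊤

/-! ## Numbers. One step of the iteration with rational numbers -/

structure Q3 where
  al : ℚ
  be : ℚ
  ka : ℚ

noncomputable def Q3.om (r : Q3) : Om :=
  ⟨ENNReal.ofReal (r.al : ℝ), ENNReal.ofReal (r.be : ℝ), ENNReal.ofReal (r.ka : ℝ)⟩

/-- sums over the words `y` of length `n` (`h` = third letter): `zp = z ^ (n + 1)`;
`bp, bh` : `ValC o p (fix y)`, `ValC o h (fix y)` for `y` in `{p,h}^n`; `hh` : `ValC o h (fix (h^n))`;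
`cc` : `ValC o h (fix y)`, `y` contains `p`; `ee` : `ValC o h (D2 y).2`, `y` contains `p`;
`ap, ah, ag` : `ValC o b (D2 y).1` for `b = p, h, g` (all with `psi σ g`); `q` : `ValC o p' (fix y)`,
`qp` : `ValC o p (fix y)` for `y` in `{p+1,p+2}^n`, `p' ≠ p` (with `psi σ p`); the `s..` are the
partial sums `∑ z ^ (n + 1) * ..` -/
structure Stt where
  zp : ℚ
  bp : ℚ
  bh : ℚ
  hh : ℚ
  cc : ℚ
  ee : ℚ
  ap : ℚ
  ah : ℚ
  ag : ℚ
  q : ℚ
  qp : ℚ
  sp : ℚ
  sh : ℚ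
  sg : ℚ
  sq : ℚ
  sqp : ℚ
  t : ℚ

def Stt.init (z σ : ℚ) : Stt :=
  ⟨z, σ, σ, σ, 0, 0, σ, σ, 1, σ, 1, 0, 0, 0, 0, 0, 0⟩

def Stt.next (z : ℚ) (r : Q3) (s : Stt) : Stt :=
  ⟨s.zp * z,
   r.be * s.bp + r.al * s.bh,
   r.al * s.bp + r.be * s.bh,
   r.be * s.hh,
   r.be * s.cc + r.al * s.bp,
   r.be * s.ee + s.ah,
   r.be * s.ap + r.al * s.hh + r.ka * (s.cc + r.al * s.ee),
   r.al * s.ap + r.be * s.hh + r.ka * (s.cc + r.al * s.ee),
   r.al * s.ap + r.al * s.hh + r.ka * (s.cc + r.al * s.ee),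
   (r.al + r.be) * s.q,
   2 * r.al * s.q,
   s.sp + s.zp * s.ap, s.sh + s.zp * s.ah, s.sg + s.zp * s.ag, s.sq + s.zp * s.q,
   s.sqp + s.zp * s.qp, s.t + s.zp * s.hh⟩

def fl (x : ℚ) : ℚ := (⌊x * 10 ^ 10⌋ : ℚ) / 10 ^ 10

/-- the sums over `n < Y` -/
def stt (Y : ℕ) (z σ : ℚ) (r : Q3) : Stt := (Stt.next z r)^[Y] (Stt.init z σ)

def stepQ (Y : ℕ) (z σ : ℚ) (r : Q3) : Q3 :=
  let s := stt Y z σ r
  ⟨fl (min s.sp (min (s.sh / σ) (s.sg / σ))), fl (min s.sqp (s.sq / σ)),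
   fl (min s.t (z + r.al * z * s.t) / σ)⟩

/-- (SUM) -/
def ST_SUM : Prop := ∀ (Y : ℕ) (z σ : ℚ) (r : Q3), 0 < z → 1 ≤ σ → 0 ≤ r.al → 0 ≤ r.be →
  0 ≤ r.ka → 0 ≤ (stepQ Y z σ r).al ∧ 0 ≤ (stepQ Y z σ r).be ∧ 0 ≤ (stepQ Y z σ r).ka ∧
  Good (ENNReal.ofReal (z : ℝ)) (ENNReal.ofReal (σ : ℝ)) r.om (stepQ Y z σ r).om

/-- (NUM) the kernel computation; `1 / z ^ 2 = 8.1502..` -/
def ST_NUM : Prop := ∃ N Y : ℕ,
  (1 : ℚ) ≤ 35028 / 100000 * ((stepQ Y (35028 / 100000) (403 / 400))^[N] ⟨0, 0, 0⟩).be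

/-! ## The problem -/

/-- the subword of `s` with the positions in `A` -/
def subw {m : ℕ} (s : Fin m → Fin 3) (A : Finset (Fin m)) : W :=
  ((List.finRange m).filter (· ∈ A)).map s

def IsShuffleSquare {m : ℕ} (s : Fin m → Fin 3) : Prop := ∃ A, subw s A = subw s Aᶜ

/-- the ternary shuffle squares of semi-length `n` -/
def S3 (n : ℕ) : Set (Fin (2 * n) → Fin 3) := {s | IsShuffleSquare s}

/-- (DEF) -/
def ST_DEF : Prop := ∀ n, (S3 n).ncard = {s : W | s.length = 2 * n ∧ SQ s}.ncard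

/-- (LIM) supermultiplicativity and Fekete's lemma (from DEF, PEN) -/
def ST_LIM : Prop := ∃ L : ℝ, 1 ≤ L ∧
  Tendsto (fun n : ℕ => ((S3 n).ncard : ℝ) ^ (1 / (n : ℝ))) atTop (𝓝 L) ∧
  ∀ n, ((S3 n).ncard : ℝ) ≤ L ^ n

/-- (FIN) finiteness (from DEF, PEN): `Pend [g] x → SQ (g :: x)` -/
def ST_FIN : Prop := ∀ L z : ℝ, 0 < z → 0 ≤ L → L * z ^ 2 < 1 →
  (∀ n, ((S3 n).ncard : ℝ) ≤ L ^ n) → ∀ g, F (ENNReal.ofReal z) (.one g .nil) < ⊤

/-- (ASM) -/
def ST_ASM : Prop := ∃ L : ℝ, 8.15 ≤ L ∧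
  Tendsto (fun n : ℕ => ((S3 n).ncard : ℝ) ^ (1 / (n : ℝ))) atTop (𝓝 L)

end SHQ
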